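import Pool.Agent.U208.DS.UNQD
import Pool.Agent.U29.EU.Stm

set_option autoImplicit false

/-! Part LIM: the limit of small viscosity (helper139, after `Pool.Agent.U208.DS.UNQD` of helper208
and `Pool.Agent.N983.RT.UNQ` of helper477). -/

namespace Pool.Agent.U139.EU

open Filter Topology Finset Pool.Agent.N983.RT Pool.Agent.U136.DS Pool.Agent.U208.DS
open scoped ComplexConjugate

noncomputable section

/-- the time derivative of the difference -/
def ld (ν : ℝ) (lam : Wv → ℝ) (u v : Fld) (m : Wv) (j : Fin 3) : ℂ :=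
  open Classical in if m = 0 then 0 else rhsD one ν lam u m j - rhsD one 0 lam v m j

theorem ld_deriv {ν : ℝ} {lam : Wv → ℝ} {u v : ℝ → Fld}
    (hu : IsSolD one ν lam u) (hv : IsSolD one 0 lam v) (t : ℝ) (ht : 0 ≤ t) (m : Wv)
    (j : Fin 3) :
    HasDerivWithinAt (fun t => (u t - v t) m j) (ld ν lam (u t) (v t) m j) (Set.Ici 0) t := by
  unfold ld
  split_ifs with hm
  · subst hm
    have h1 : ∀ s ∈ Set.Ici (0 : ℝ), (u s - v s) 0 j = 0 := by
      intro s hs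
      show u s 0 j - v s 0 j = 0
      rw [(hu.adm s hs).zero, (hv.adm s hs).zero]
      simp
    exact (hasDerivWithinAt_const t (Set.Ici (0 : ℝ)) (0 : ℂ)).congr h1 (h1 t ht)
  · exact (hu.eqn t ht m hm j).sub (hv.eqn t ht m hm j)

theorem ld_energy {ν : ℝ} (hν : 0 ≤ ν) (lam : Wv → ℝ) {u v : Fld} (hu : Adm u)
    (hv : Adm v) (m : Wv) :
    ∑ j, (conj ((u - v) m j) * ld ν lam u v m j).re ≤
      (-Complex.I * ∑ j, conj ((u - v) m j) * (conv one u m j - conv one v m j)).re +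
        ∑ j, ν * nsq m * ‖u m j‖ * ‖(u - v) m j‖ := by
  unfold ld
  have hpos : 0 ≤ ∑ j, ν * nsq m * ‖u m j‖ * ‖(u - v) m j‖ := by
    have := unq_nsq m
    positivity
  split_ifs with hm
  · subst hm
    have h1 : ∀ j, (u - v) 0 j = 0 := by
      intro j
      show u 0 j - v 0 j = 0
      rw [hu.zero, hv.zero]
      simp
    simp [h1]
  · have hdiv : dt ((u - v) m) m = 0 := by
      have h8 : dt ((u - v) m) m = dt (u m) m - dt (v m) m := by
        unfold dt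
        rw [← Finset.sum_sub_distrib]
        refine Finset.sum_congr rfl fun i _ => ?_
        show (u m i - v m i) * _ = _
        ring
      rw [h8, hu.div, hv.div, sub_zero]
    have h1 := unq_prj m ((u - v) m) (conv one u m) (conv one v m) hdiv
    rw [← h1, Finset.mul_sum, Complex.re_sum, ← Finset.sum_add_distrib]
    refine Finset.sum_le_sum fun j _ => ?_
    obtain ⟨c, hc⟩ : ∃ c : ℝ, c = ν * nsq m := ⟨_, rfl⟩
    have hc0 : 0 ≤ c := by rw [hc]; exact mul_nonneg hν (unq_nsq m)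
    have h2 : rhsD one ν lam u m j - rhsD one 0 lam v m j = -((c : ℂ) * u m j) +
        -Complex.I * (prj m (conv one u m) j - prj m (conv one v m) j) -
          Complex.I * (lam m : ℂ) * (u - v) m j := by
      unfold rhsD rhs
      rw [Real.rpow_one, ← hc]
      show _ = -((c : ℂ) * u m j) + _ - Complex.I * (lam m : ℂ) * (u m j - v m j)
      push_cast
      ring
    rw [h2]
    have h4 : conj ((u - v) m j) * (u - v) m j = ((‖(u - v) m j‖ ^ 2 : ℝ) : ℂ) := by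
      rw [← Complex.normSq_eq_conj_mul_self, Complex.normSq_eq_norm_sq]
    have h3 : conj ((u - v) m j) * (-((c : ℂ) * u m j) +
        -Complex.I * (prj m (conv one u m) j - prj m (conv one v m) j) -
          Complex.I * (lam m : ℂ) * (u - v) m j) =
        -(conj ((u - v) m j) * ((c : ℂ) * u m j)) + -Complex.I * (conj ((u - v) m j) *
          (prj m (conv one u m) j - prj m (conv one v m) j)) -
            Complex.I * ((lam m * ‖(u - v) m j‖ ^ 2 : ℝ) : ℂ) := by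
      push_cast at h4 ⊢
      linear_combination (-(Complex.I * (lam m : ℂ))) * h4
    rw [h3, Complex.sub_re, Complex.add_re, Complex.neg_re]
    have h7 : (Complex.I * ((lam m * ‖(u - v) m j‖ ^ 2 : ℝ) : ℂ)).re = 0 := by
      rw [Complex.mul_re, Complex.ofReal_im, Complex.I_re]
      ring
    rw [h7, sub_zero]
    have h5 : -(conj ((u - v) m j) * ((c : ℂ) * u m j)).re ≤
        ν * nsq m * ‖u m j‖ * ‖(u - v) m j‖ := by
      refine (neg_le_abs _).trans ((Complex.abs_re_le_norm _).trans ?_)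
      rw [norm_mul, norm_mul, RCLike.norm_conj, Complex.norm_real, Real.norm_eq_abs,
        abs_of_nonneg hc0, hc]
      apply le_of_eq
      ring
    linarith

theorem ld_deriv_E {ν : ℝ} {lam : Wv → ℝ} {u v : ℝ → Fld}
    (hu : IsSolD one ν lam u) (hv : IsSolD one 0 lam v) (n : ℕ) (t : ℝ) (ht : 0 ≤ t) :
    HasDerivWithinAt (fun t => unq_E n (u t - v t))
      (∑ m ∈ cub n, ∑ j, 2 * (conj ((u t - v t) m j) * ld ν lam (u t) (v t) m j).re)
      (Set.Ici 0) t := by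
  unfold unq_E
  refine HasDerivWithinAt.fun_sum fun m _ => HasDerivWithinAt.fun_sum fun j _ => ?_
  have h1 := (ld_deriv hu hv t ht m j).norm_sq
  rw [Complex.inner] at h1
  simpa only [mul_comm] using h1

/-- the contribution of the viscosity -/
theorem ld_visc (hS : Summable unq_q) {ν C : ℝ} {u : Fld}
    (hu : ∀ k i, (1 + nsq k) ^ 4 * ‖u k i‖ ≤ C) (w : Fld) (n : ℕ) :
    2 * ∑ m ∈ cub n, ∑ j, ν * nsq m * ‖u m j‖ * ‖w m j‖ ≤
      unq_E n w + ν ^ 2 * (3 * C ^ 2 * ∑' k, unq_q k) := by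
  have h1 : ∀ m j, 2 * (ν * nsq m * ‖u m j‖ * ‖w m j‖) ≤
      ‖w m j‖ ^ 2 + ν ^ 2 * (C ^ 2 * unq_q m) := by
    intro m j
    have h2 : (nsq m * ‖u m j‖) ^ 2 ≤ C ^ 2 * unq_q m := by
      have hW := unq_W m
      have h3 := hu m j
      have h4 : (0 : ℝ) < (1 + nsq m) ^ 3 := by positivity
      unfold unq_q
      rw [← div_eq_mul_inv, le_div_iff₀ h4]
      have h5 : (nsq m * ‖u m j‖) ^ 2 * (1 + nsq m) ^ 3 ≤ ((1 + nsq m) ^ 4 * ‖u m j‖) ^ 2 := by
        have h6 : nsq m ^ 2 ≤ (1 + nsq m) ^ 2 :=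
          pow_le_pow_left₀ (unq_nsq m) (by linarith) 2
        have h7 : (1 : ℝ) ≤ (1 + nsq m) ^ 3 := one_le_pow₀ hW
        have h8 : (nsq m * ‖u m j‖) ^ 2 * (1 + nsq m) ^ 3 =
            nsq m ^ 2 * ((1 + nsq m) ^ 3 * ‖u m j‖ ^ 2) := by ring
        have h9 : ((1 + nsq m) ^ 4 * ‖u m j‖) ^ 2 =
            (1 + nsq m) ^ 2 * ((1 + nsq m) ^ 3 * ‖u m j‖ ^ 2) * (1 + nsq m) ^ 3 := by ring
        rw [h8, h9]
        have h10 : 0 ≤ (1 + nsq m) ^ 3 * ‖u m j‖ ^ 2 := by positivity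
        calc nsq m ^ 2 * ((1 + nsq m) ^ 3 * ‖u m j‖ ^ 2)
            ≤ (1 + nsq m) ^ 2 * ((1 + nsq m) ^ 3 * ‖u m j‖ ^ 2) :=
              mul_le_mul_of_nonneg_right h6 h10
          _ ≤ _ := le_mul_of_one_le_right (by positivity) h7
      refine h5.trans ?_
      exact pow_le_pow_left₀ (by positivity) h3 2
    nlinarith [sq_nonneg (‖w m j‖ - ν * (nsq m * ‖u m j‖)), sq_nonneg ν,
      mul_le_mul_of_nonneg_left h2 (sq_nonneg ν)]
  rw [Finset.mul_sum]
  have h2 : ∑ m ∈ cub n, 2 * ∑ j, ν * nsq m * ‖u m j‖ * ‖w m j‖ ≤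
      ∑ m ∈ cub n, (∑ j, ‖w m j‖ ^ 2 + 3 * (ν ^ 2 * (C ^ 2 * unq_q m))) := by
    refine Finset.sum_le_sum fun m _ => ?_
    rw [Finset.mul_sum]
    refine (Finset.sum_le_sum fun j _ => h1 m j).trans ?_
    rw [Finset.sum_add_distrib]
    simp
  refine h2.trans ?_
  rw [Finset.sum_add_distrib]
  have h3 : ∑ m ∈ cub n, 3 * (ν ^ 2 * (C ^ 2 * unq_q m)) =
      ν ^ 2 * (3 * C ^ 2 * ∑ m ∈ cub n, unq_q m) := by
    simp only [Finset.mul_sum]
    refine Finset.sum_congr rfl fun m _ => ?_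
    ring
  rw [h3]
  have h4 : ∑ m ∈ cub n, unq_q m ≤ ∑' k, unq_q k := hS.sum_le_tsum _ fun k _ => unq_q_nonneg k
  have h5 : ν ^ 2 * (3 * C ^ 2 * ∑ m ∈ cub n, unq_q m) ≤
      ν ^ 2 * (3 * C ^ 2 * ∑' k, unq_q k) :=
    mul_le_mul_of_nonneg_left (mul_le_mul_of_nonneg_left h4 (by positivity)) (sq_nonneg ν)
  unfold unq_E
  linarith

theorem t_LIM : Pool.Agent.U29.EU.S_LIM := by
  intro hS lam _ Cs T₀
  have hS' : Summable unq_q := hS
  obtain ⟨C, hC⟩ : ∃ C : ℝ, C = |Cs 4| := ⟨_, rfl⟩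
  have hC0 : 0 ≤ C := hC ▸ abs_nonneg _
  obtain ⟨D, hD⟩ : ∃ D : ℝ, D = 6 * C := ⟨_, rfl⟩
  have hD0 : 0 ≤ D := by linarith
  have hσ : 0 ≤ ∑' k, unq_q k := tsum_nonneg unq_q_nonneg
  obtain ⟨σ, hσd⟩ : ∃ σ : ℝ, σ = ∑' k, unq_q k := ⟨_, rfl⟩
  rw [← hσd] at hσ
  have hK1 : 0 ≤ 6 * D * σ := by positivity
  have hK2 : 0 ≤ 4 * D ^ 3 * σ := by positivity
  obtain ⟨K, hK⟩ : ∃ K : ℝ, K = 6 * D * σ + 4 * D ^ 3 * σ + 1 := ⟨_, rfl⟩
  have hK0 : 0 ≤ K := by linarith
  obtain ⟨P, hP⟩ : ∃ P : ℝ, P = 3 * C ^ 2 * σ := ⟨_, rfl⟩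
  have hP0 : 0 ≤ P := by rw [hP]; positivity
  refine ⟨Real.sqrt (P * Real.exp (K * T₀)), Real.sqrt_nonneg _, ?_⟩
  intro ν hν _ u v hu hv h0 hdcy T hT hTT
  have hC1 : ∀ t, 0 ≤ t → t ≤ T → ∀ k i, (1 + nsq k) ^ 4 * ‖u t k i‖ ≤ C := by
    intro t h1 h2 k i
    rw [hC]
    exact ((hdcy t h1 (h2.trans hTT)).1 4 k i).trans (le_abs_self _)
  have hC2 : ∀ t, 0 ≤ t → t ≤ T → ∀ k i, (1 + nsq k) ^ 4 * ‖v t k i‖ ≤ C := by
    intro t h1 h2 k i
    rw [hC]
    exact ((hdcy t h1 (h2.trans hTT)).2 4 k i).trans (le_abs_self _)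
  have hGu : ∀ t, 0 ≤ t → t ≤ T → unq_G D (u t) := by
    intro t h1 h2 k
    unfold unq_a
    rw [Finset.mul_sum]
    refine (Finset.sum_le_sum fun j _ => hC1 t h1 h2 k j).trans ?_
    simp
    linarith
  have hGv : ∀ t, 0 ≤ t → t ≤ T → unq_G D (v t) := by
    intro t h1 h2 k
    unfold unq_a
    rw [Finset.mul_sum]
    refine (Finset.sum_le_sum fun j _ => hC2 t h1 h2 k j).trans ?_
    simp
    linarith
  have hGw : ∀ t, 0 ≤ t → t ≤ T → unq_G D (u t - v t) := by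
    intro t h1 h2 k
    unfold unq_a
    rw [Finset.mul_sum]
    have h3 : ∀ j, (1 + nsq k) ^ 4 * ‖(u t - v t) k j‖ ≤ C + C := by
      intro j
      have h4 : ‖(u t - v t) k j‖ ≤ ‖u t k j‖ + ‖v t k j‖ := norm_sub_le _ _
      have h5 := hC1 t h1 h2 k j
      have h6 := hC2 t h1 h2 k j
      have h7 : 0 ≤ (1 + nsq k) ^ 4 := pow_nonneg (by linarith [unq_W k]) 4
      nlinarith
    refine (Finset.sum_le_sum fun j _ => h3 j).trans ?_
    simp
    linarith
  -- the energy estimate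
  have key : ∀ n : ℕ, unq_E n (u T - v T) ≤
      ((σ - ∑ k ∈ cub n, unq_q k) + ν ^ 2 * P) * Real.exp (K * T) := by
    intro n
    have hτ : 0 ≤ σ - ∑ k ∈ cub n, unq_q k := by
      rw [hσd]
      exact sub_nonneg.2 (hS'.sum_le_tsum _ fun k _ => unq_q_nonneg k)
    obtain ⟨τ, hτd⟩ : ∃ τ : ℝ, τ = σ - ∑ k ∈ cub n, unq_q k := ⟨_, rfl⟩
    rw [← hτd] at hτ ⊢
    obtain ⟨ρ, hρd⟩ : ∃ ρ : ℝ, ρ = τ + ν ^ 2 * P := ⟨_, rfl⟩
    have hνP : 0 ≤ ν ^ 2 * P := by positivity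
    have hρ : 0 ≤ ρ := by linarith
    rw [← hρd]
    obtain ⟨E', hE'⟩ : ∃ E' : ℝ → ℝ, ∀ t, E' t = ∑ m ∈ cub n, ∑ j,
      2 * (conj ((u t - v t) m j) * ld ν lam (u t) (v t) m j).re := ⟨_, fun _ => rfl⟩
    have hder : ∀ t, 0 ≤ t → HasDerivWithinAt (fun t => unq_E n (u t - v t)) (E' t)
        (Set.Ici 0) t := by
      intro t ht
      rw [hE']
      exact ld_deriv_E hu hv n t ht
    have hbd : ∀ t, 0 ≤ t → t ≤ T → E' t ≤ K * (unq_E n (u t - v t) + ρ) := by
      intro t h1 h2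
      have hE0 : 0 ≤ unq_E n (u t - v t) :=
        Finset.sum_nonneg fun _ _ => Finset.sum_nonneg fun _ _ => sq_nonneg _
      have h3 := unq_static hS' arr_one (hu.adm t h1) (hGu t h1 h2) (hGv t h1 h2)
        (hGw t h1 h2) n
      rw [← hσd, ← hτd] at h3
      have h4 : E' t ≤ 2 * (-Complex.I * ∑ m ∈ cub n, ∑ j, conj ((u t - v t) m j) *
          (conv one (u t) m j - conv one (v t) m j)).re +
          2 * ∑ m ∈ cub n, ∑ j, ν * nsq m * ‖u t m j‖ * ‖(u t - v t) m j‖ := by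
        rw [hE', Finset.mul_sum (cub n), Complex.re_sum, ← mul_add, ← Finset.sum_add_distrib,
          Finset.mul_sum]
        refine Finset.sum_le_sum fun m _ => ?_
        rw [← Finset.mul_sum]
        exact mul_le_mul_of_nonneg_left (ld_energy hν lam (hu.adm t h1) (hv.adm t h1) m)
          zero_le_two
      have h5 := ld_visc (ν := ν) hS' (hC1 t h1 h2) (u t - v t) n
      rw [← hσd, ← hP] at h5
      rw [hK, hρd]
      nlinarith [mul_nonneg hK2 hE0, mul_nonneg hK1 hτ, mul_nonneg hK1 hνP, mul_nonneg hK2 hνP]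
    have hh : ∀ t, 0 ≤ t → HasDerivWithinAt
        (fun t => (unq_E n (u t - v t) + ρ) * Real.exp (-(K * t)))
        (E' t * Real.exp (-(K * t)) + (unq_E n (u t - v t) + ρ) *
          (Real.exp (-(K * t)) * (-(K * 1)))) (Set.Ici 0) t := by
      intro t ht
      have h1 : HasDerivWithinAt (fun t : ℝ => Real.exp (-(K * t)))
          (Real.exp (-(K * t)) * (-(K * 1))) (Set.Ici 0) t :=
        (((hasDerivAt_id t).const_mul K).fun_neg.exp).hasDerivWithinAt
      exact ((hder t ht).add_const ρ).mul h1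
    have hanti : AntitoneOn (fun t => (unq_E n (u t - v t) + ρ) * Real.exp (-(K * t)))
        (Set.Icc 0 T) := by
      refine antitoneOn_of_deriv_nonpos (convex_Icc 0 T) ?_ ?_ ?_
      · intro t ht
        exact ((hh t ht.1).continuousWithinAt).mono Set.Icc_subset_Ici_self
      · intro t ht
        rw [interior_Icc] at ht
        exact ((hh t ht.1.le).hasDerivAt (Ici_mem_nhds ht.1)).differentiableAt.differentiableWithinAt
      · intro t ht
        rw [interior_Icc] at ht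
        rw [((hh t ht.1.le).hasDerivAt (Ici_mem_nhds ht.1)).deriv]
        have h1 := hbd t ht.1.le ht.2.le
        have h2 := Real.exp_pos (-(K * t))
        nlinarith
    have h1 := hanti (Set.left_mem_Icc.2 hT) (Set.right_mem_Icc.2 hT) hT
    have h2 : unq_E n (u 0 - v 0) = 0 := by
      rw [h0, sub_self]
      simp [unq_E]
    have h3 : (unq_E n (u T - v T) + ρ) * Real.exp (-(K * T)) ≤
        (unq_E n (u 0 - v 0) + ρ) * Real.exp (-(K * 0)) := h1
    rw [h2, mul_zero, neg_zero, Real.exp_zero, mul_one, zero_add] at h3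
    have h4 := Real.exp_pos (K * T)
    have h5 : Real.exp (-(K * T)) * Real.exp (K * T) = 1 := by
      rw [← Real.exp_add]
      simp
    have h6 : unq_E n (u T - v T) + ρ ≤ ρ * Real.exp (K * T) := by
      have h7 := mul_le_mul_of_nonneg_right h3 h4.le
      rwa [mul_assoc, h5, mul_one] at h7
    linarith
  -- the limit
  have hlim : Tendsto (fun n : ℕ => ((σ - ∑ k ∈ cub n, unq_q k) + ν ^ 2 * P) *
      Real.exp (K * T)) atTop (𝓝 (((σ - σ) + ν ^ 2 * P) * Real.exp (K * T))) := by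
    refine Tendsto.mul_const _ (Tendsto.add_const _ (Tendsto.const_sub _ ?_))
    rw [hσd]
    exact hS'.hasSum.comp unq_cub
  rw [sub_self, zero_add] at hlim
  intro m j
  have h1 : ∀ᶠ n : ℕ in atTop, m ∈ cub n := by
    have h2 := unq_cub.eventually (eventually_ge_atTop ({m} : Finset Wv))
    refine h2.mono fun n hn => ?_
    exact hn (Finset.mem_singleton_self m)
  have h3 : ‖(u T - v T) m j‖ ^ 2 ≤ ν ^ 2 * P * Real.exp (K * T) := by
    refine ge_of_tendsto hlim (h1.mono fun n hn => le_trans ?_ (key n))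
    unfold unq_E
    refine le_trans ?_ (Finset.single_le_sum (f := fun m => ∑ j, ‖(u T - v T) m j‖ ^ 2)
      (fun _ _ => Finset.sum_nonneg fun _ _ => sq_nonneg _) hn)
    exact Finset.single_le_sum (f := fun j => ‖(u T - v T) m j‖ ^ 2)
      (fun _ _ => sq_nonneg _) (Finset.mem_univ j)
  have h4 : ‖(u T - v T) m j‖ ^ 2 ≤ (Real.sqrt (P * Real.exp (K * T₀)) * ν) ^ 2 := by
    rw [mul_pow, Real.sq_sqrt (by positivity)]
    refine h3.trans ?_
    have h5 : Real.exp (K * T) ≤ Real.exp (K * T₀) :=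
      Real.exp_le_exp.2 (mul_le_mul_of_nonneg_left hTT hK0)
    have h6 : 0 ≤ ν ^ 2 * P := by positivity
    calc ν ^ 2 * P * Real.exp (K * T) ≤ ν ^ 2 * P * Real.exp (K * T₀) :=
          mul_le_mul_of_nonneg_left h5 h6
      _ = _ := by ring
  have h5 : ‖(u T - v T) m j‖ ≤ Real.sqrt (P * Real.exp (K * T₀)) * ν :=
    (sq_le_sq₀ (norm_nonneg _) (mul_nonneg (Real.sqrt_nonneg _) hν)).1 h4
  exact h5

end

end Pool.Agent.U139.EU
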